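import Pool.Agent.Mg.F38b55ap.G508de6

set_option autoImplicit false

namespace Pool.Agent.Results.MP_38b55a_al.AbelianFactor

/-- For every prime p there is N such that each finite p-group G = AB, with A and B of exponent p and
A abelian, has exponent at most N. -/
theorem result :
    ∀ p : ℕ, p.Prime → ∃ N : ℕ, ∀ (G : Type) [Group G] [Finite G], IsPGroup p G →
      ∀ A B : Subgroup G, (∀ a ∈ A, a ^ p = 1) → (∀ b ∈ B, b ^ p = 1) →
        (∀ g : G, ∃ a ∈ A, ∃ b ∈ B, g = a * b) → (∀ a ∈ A, ∀ a' ∈ A, a * a' = a' * a) →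
        Monoid.exponent G ≤ N := by
  intro p hp
  obtain ⟨n, rfl⟩ : ∃ n, p = n + 1 := ⟨p - 1, by have := hp.pos; omega⟩
  obtain ⟨N, hN⟩ := Pool.Agent.MP38b55a.bound2.{0} n hp (Pool.Agent.MP38b55a.ai_all n hp)
  exact ⟨(n + 1) ^ N, fun G _ _ hG A B hA hB fac hc => Nat.le_of_dvd (pow_pos hp.pos N)
    (Monoid.exponent_dvd_of_forall_pow_eq_one (hN G hG A B hA hB fac hc))⟩

end Pool.Agent.Results.MP_38b55a_al.AbelianFactor
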