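import Pool.Agent.MP38b55aLow.Ring

set_option autoImplicit false

namespace Pool.Agent.Results.MP_38b55a_al.CubeLower

open Pool.Agent.MP38b55aLow

/-- For every odd prime p there is a finite p-group G = AB, with A and B of exponent p, whose
exponent is p ^ 3. -/
theorem result :
    ∀ p : ℕ, p.Prime → p ≠ 2 → ∃ (G : Type) (_ : Group G) (_ : Finite G), IsPGroup p G ∧
      ∃ A B : Subgroup G, (∀ a ∈ A, a ^ p = 1) ∧ (∀ b ∈ B, b ^ p = 1) ∧
        (∀ g : G, ∃ a ∈ A, ∃ b ∈ B, g = a * b) ∧ Monoid.exponent G = p ^ 3 := by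
  intro p hp h2
  haveI : Fact p.Prime := ⟨hp⟩
  haveI : Finite (TrivSqZeroExt (Rg p) (Rg p)) := inferInstanceAs (Finite (Rg p × Rg p))
  have hp0 : (p : TrivSqZeroExt (Rg p) (Rg p)) = 0 := by
    rw [← map_natCast (algebraMap (ZMod p) _), ZMod.natCast_self, map_zero]
  exact ⟨Gp (ch p), inferInstance, inferInstance, fun g => ⟨3, pow_cube hp0 g⟩, subA (ch p),
    subB (ch p), subA_pow (ch_e p h2) (ch_f p), subB_pow, factor, exponent_eq hp0 (ch_c p)⟩

end Pool.Agent.Results.MP_38b55a_al.CubeLower
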