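import Pool.Agent.MP_38b55a_al.UT.Main

set_option autoImplicit false

namespace Pool.Agent.Results.MP_38b55a_al.DenseUnitriangular

open MP38b55a.UT

/-- For every prime p and every C there is N with the following property. Let G be a group of
upper unitriangular n by n matrices over a finite field F of characteristic p, let m ≤ n ≤ C m, and
assume that the top left m by m corners of the elements of G form a subgroup of index less than
|F| ^ (m ^ 2 / N) in the group of unitriangular m by m matrices, of order |F| ^ (m choose 2).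
If G is the product of two subgroups of exponent p then G has exponent at most N. -/
theorem result :
    ∀ p C : ℕ, p.Prime → ∃ N : ℕ, 0 < N ∧
      ∀ (F : Type) [Field F] [Finite F] [CharP F p] (m n : ℕ) (hmn : m ≤ n), n ≤ C * m →
      ∀ G A B : Subgroup (GL (Fin n) F),
        (∀ g ∈ G, ∀ i j : Fin n, j ≤ i →
          (g : Matrix (Fin n) (Fin n) F) i j = (1 : Matrix (Fin n) (Fin n) F) i j) →
        Nat.card F ^ (N * m.choose 2) <
          ((fun g : GL (Fin n) F => (g : Matrix (Fin n) (Fin n) F).submatrix
            (Fin.castLE hmn) (Fin.castLE hmn)) '' G).ncard ^ N * Nat.card F ^ (m ^ 2) →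
        A ≤ G → B ≤ G → (∀ a ∈ A, a ^ p = 1) → (∀ b ∈ B, b ^ p = 1) →
        (∀ g ∈ G, ∃ a ∈ A, ∃ b ∈ B, g = a * b) → Monoid.exponent G ≤ N := by
  intro p C hp
  obtain ⟨N, hN, hc⟩ := corner_bound hp
  have big : ∀ e : ℕ, e ≤ p ^ e := fun e => (Nat.lt_pow_self hp.one_lt).le
  refine ⟨p ^ (C * N + N), pow_pos hp.pos _,
    fun F _ _ _ m n hmn hC G A B hG hcard hA hB eA eB hAB => ?_⟩
  have q1 : 1 < Nat.card F := Finite.one_lt_card
  have hm : m < N := by
    by_contra hm
    refine hm (hc F m n hmn G A B hG hA hB eA eB hAB ?_)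
    rw [mul_comm _ (m.choose 2), pow_mul] at hcard ⊢
    refine weaken ?_ (Nat.one_lt_pow (by positivity [show 0 < m by omega]) q1)
      (le_trans (Nat.le_add_left _ _) (big _)) hcard
    exact (Set.ncard_pos (Set.toFinite _)).2 ⟨_, 1, G.one_mem, rfl⟩
  have hn : n ≤ p ^ (C * N + N) := by
    have : C * m ≤ C * N := Nat.mul_le_mul_left C hm.le
    have := big (C * N + N)
    omega
  refine Nat.le_of_dvd (pow_pos hp.pos _) (Monoid.exponent_dvd_of_forall_pow_eq_one fun g => ?_)
  exact Subtype.ext (tri_pow hp hn g.1 (hG _ g.2))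

end Pool.Agent.Results.MP_38b55a_al.DenseUnitriangular
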